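import Mathlib

/-!
In every dimension `k ≥ 2` and in every degree `d ≥ 2` there is a holomorphic self-map of the
projective space `P^k` all of whose fixed points are saddles.
-/

open scoped LinearAlgebra.Projectivization

namespace Pool.Agent.Results.MP_10bb55_an.AllDimensions

/-- A holomorphic self-map of `P^m` of degree `d`, given by `m + 1` homogeneous polynomials of
degree `d` in `m + 1` variables whose only common zero is the origin of `C^(m+1)`. -/
structure HolMap (m d : ℕ) where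
  F : Fin (m + 1) → MvPolynomial (Fin (m + 1)) ℂ
  homogeneous : ∀ i, (F i).IsHomogeneous d
  onlyZero : ∀ z : Fin (m + 1) → ℂ, (∀ i, MvPolynomial.eval z (F i) = 0) → z = 0

/-- The lift `z ↦ (F_0(z), …, F_m(z))` to `C^(m+1)`. -/
noncomputable def HolMap.lift {m d : ℕ} (f : HolMap m d) (z : Fin (m + 1) → ℂ) : Fin (m + 1) → ℂ :=
  fun i => MvPolynomial.eval z (f.F i)

theorem HolMap.lift_ne_zero {m d : ℕ} (f : HolMap m d) {z : Fin (m + 1) → ℂ} (hz : z ≠ 0) :
    f.lift z ≠ 0 :=
  fun h => hz (f.onlyZero z fun i => congrFun h i)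

/-- The induced map `[z] ↦ [F_0(z) : … : F_m(z)]` of the projective space. -/
noncomputable def HolMap.map {m d : ℕ} (f : HolMap m d) (p : ℙ ℂ (Fin (m + 1) → ℂ)) : ℙ ℂ (Fin (m + 1) → ℂ) :=
  Projectivization.mk ℂ (f.lift p.rep) (f.lift_ne_zero p.rep_nonzero)

/-- The affine point `u ∈ C^2` seen in `P^m` through the `i`-th standard chart: the homogeneous
coordinate number `i` is `1`, the others are the coordinates of `u`. -/
noncomputable def toPlane {m : ℕ} (i : Fin (m + 1)) (u : Fin m → ℂ) : ℙ ℂ (Fin (m + 1) → ℂ) :=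
  Projectivization.mk ℂ (i.insertNth (α := fun _ => ℂ) 1 u) (fun h => by
    have := congrFun h i
    simp at this)

/-- The `i`-th standard chart `[z] ↦ (z_j / z_i)_{j ≠ i}` of the projective space. -/
noncomputable def ofPlane {m : ℕ} (i : Fin (m + 1)) (p : ℙ ℂ (Fin (m + 1) → ℂ)) : Fin m → ℂ :=
  fun j => p.rep (i.succAbove j) / p.rep i

/-- The map read in the `i`-th standard chart (both in the source and in the target). -/
noncomputable def HolMap.inChart {m d : ℕ} (f : HolMap m d) (i : Fin (m + 1)) (u : Fin m → ℂ) : Fin m → ℂ :=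
  ofPlane i (f.map (toPlane i u))

theorem eval_smul_of_homogeneous {m d : ℕ} {P : MvPolynomial (Fin (m + 1)) ℂ} (hP : P.IsHomogeneous d)
    (a : ℂ) (z : Fin (m + 1) → ℂ) :
    MvPolynomial.eval (a • z) P = a ^ d * MvPolynomial.eval z P := by
  rw [MvPolynomial.eval_eq', MvPolynomial.eval_eq', Finset.mul_sum]
  refine Finset.sum_congr rfl fun s hs => ?_
  have hdeg : ∑ i, s i = d := by
    have := hP (MvPolynomial.mem_support_iff.1 hs)
    rw [← this, Finsupp.weight_apply, Finsupp.sum_fintype]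
    · simp
    · simp
  simp only [Pi.smul_apply, smul_eq_mul, mul_pow, Finset.prod_mul_distrib]
  rw [Finset.prod_pow_eq_pow_sum, hdeg]
  ring

theorem lift_smul {m d : ℕ} (f : HolMap m d) (a : ℂ) (z : Fin (m + 1) → ℂ) :
    f.lift (a • z) = a ^ d • f.lift z := by
  funext i
  simp only [HolMap.lift, Pi.smul_apply, smul_eq_mul]
  exact eval_smul_of_homogeneous (f.homogeneous i) a z

/-- The induced map is computed on any representative. -/
theorem map_mk {m d : ℕ} (f : HolMap m d) (z : Fin (m + 1) → ℂ) (hz : z ≠ 0) :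
    f.map (Projectivization.mk ℂ z hz) = Projectivization.mk ℂ (f.lift z) (f.lift_ne_zero hz) := by
  obtain ⟨a, ha⟩ := Projectivization.exists_smul_eq_mk_rep ℂ z hz
  unfold HolMap.map
  rw [Projectivization.mk_eq_mk_iff']
  refine ⟨(a : ℂ) ^ d, ?_⟩
  rw [← lift_smul, ← ha]
  rfl

theorem ofPlane_mk {m : ℕ} (i : Fin (m + 1)) (z : Fin (m + 1) → ℂ) (hz : z ≠ 0) :
    ofPlane i (Projectivization.mk ℂ z hz) = fun j => z (i.succAbove j) / z i := by
  obtain ⟨a, ha⟩ := Projectivization.exists_smul_eq_mk_rep ℂ z hz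
  funext j
  unfold ofPlane
  rw [← ha]
  have : (a : ℂ) ≠ 0 := a.ne_zero
  simp only [Pi.smul_apply, Units.smul_def, smul_eq_mul]
  rw [mul_div_mul_left _ _ this]

theorem inChart_eq {m d : ℕ} (f : HolMap m d) (i : Fin (m + 1)) :
    f.inChart i = fun u j => f.lift (i.insertNth (α := fun _ => ℂ) 1 u) (i.succAbove j) /
      f.lift (i.insertNth (α := fun _ => ℂ) 1 u) i := by
  funext u
  unfold HolMap.inChart toPlane
  rw [map_mk, ofPlane_mk]

/-- The linear inclusion `C^m → C^(m+1)` putting `0` at place `i`. -/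
noncomputable def ins {m : ℕ} (i : Fin (m + 1)) : (Fin m → ℂ) →L[ℂ] (Fin (m + 1) → ℂ) :=
  LinearMap.toContinuousLinearMap
    { toFun := fun h => i.insertNth (α := fun _ => ℂ) 0 h
      map_add' := by
        intro x y
        funext k
        rcases Fin.eq_self_or_eq_succAbove i k with rfl | ⟨j, rfl⟩ <;> simp
      map_smul' := by
        intro a x
        funext k
        rcases Fin.eq_self_or_eq_succAbove i k with rfl | ⟨j, rfl⟩ <;> simp }

theorem ins_same {m : ℕ} (i : Fin (m + 1)) (h : Fin m → ℂ) : ins i h i = 0 := by simp [ins]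

theorem ins_succAbove {m : ℕ} (i : Fin (m + 1)) (h : Fin m → ℂ) (j : Fin m) :
    ins i h (i.succAbove j) = h j := by simp [ins]

theorem insertNth_eq {m : ℕ} (i : Fin (m + 1)) (u : Fin m → ℂ) :
    i.insertNth (α := fun _ => ℂ) 1 u = Pi.single i 1 + ins i u := by
  funext k
  rcases Fin.eq_self_or_eq_succAbove i k with rfl | ⟨j, rfl⟩
  · simp [ins_same]
  · simp [ins_succAbove]

theorem hasFDerivAt_insertNth {m : ℕ} (i : Fin (m + 1)) (u : Fin m → ℂ) :
    HasFDerivAt (fun u : Fin m → ℂ => i.insertNth (α := fun _ => ℂ) 1 u) (ins i) u := by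
  have : (fun u : Fin m → ℂ => i.insertNth (α := fun _ => ℂ) 1 u)
      = fun u => Pi.single i 1 + ins i u := by
    funext u; exact insertNth_eq i u
  rw [this]
  exact ((ins i).hasFDerivAt).const_add _

/-- Derivative of the map read in a chart at a fixed point `v` (normalised by `v_i = 1`). -/
theorem hasFDerivAt_chart {m : ℕ} (G : (Fin (m + 1) → ℂ) → (Fin (m + 1) → ℂ)) (i : Fin (m + 1)) (u : Fin m → ℂ)
    (L : (Fin (m + 1) → ℂ) →L[ℂ] (Fin (m + 1) → ℂ))
    (hL : HasFDerivAt G L (i.insertNth (α := fun _ => ℂ) 1 u)) (c : ℂ) (hc : c ≠ 0)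
    (hG : G (i.insertNth (α := fun _ => ℂ) 1 u) = c • i.insertNth (α := fun _ => ℂ) 1 u) :
    ∃ A : (Fin m → ℂ) →L[ℂ] (Fin m → ℂ),
      HasFDerivAt (fun (u : Fin m → ℂ) (j : Fin m) =>
        G (i.insertNth (α := fun _ => ℂ) 1 u) (i.succAbove j) /
          G (i.insertNth (α := fun _ => ℂ) 1 u) i) A u ∧
      ∀ (h : Fin m → ℂ) (j : Fin m),
        A h j = c⁻¹ * (L (ins i h) (i.succAbove j) - u j * L (ins i h) i) := by
  have hcomp : HasFDerivAt (fun u : Fin m → ℂ => G (i.insertNth (α := fun _ => ℂ) 1 u))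
      (L.comp (ins i)) u := HasFDerivAt.comp u hL (hasFDerivAt_insertNth i u)
  have hcoord : ∀ k : Fin (m + 1), HasFDerivAt
      (fun u : Fin m → ℂ => G (i.insertNth (α := fun _ => ℂ) 1 u) k)
      ((ContinuousLinearMap.proj (R := ℂ) (φ := fun _ : Fin (m + 1) => ℂ) k).comp (L.comp (ins i))) u :=
    fun k => hasFDerivAt_pi'.1 hcomp k
  have hi : G (i.insertNth (α := fun _ => ℂ) 1 u) i = c := by
    rw [hG]; simp
  have hj : ∀ j : Fin m, G (i.insertNth (α := fun _ => ℂ) 1 u) (i.succAbove j) = c * u j := by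
    intro j; rw [hG]; simp
  have hinv : HasFDerivAt (fun u : Fin m → ℂ => (G (i.insertNth (α := fun _ => ℂ) 1 u) i)⁻¹)
      (-(c ^ 2)⁻¹ • ((ContinuousLinearMap.proj (R := ℂ) (φ := fun _ : Fin (m + 1) => ℂ) i).comp
        (L.comp (ins i)))) u := by
    have h1 : HasDerivAt (fun x : ℂ => x⁻¹) (-(c ^ 2)⁻¹)
        (G (i.insertNth (α := fun _ => ℂ) 1 u) i) := by
      rw [hi]; exact hasDerivAt_inv hc
    exact h1.comp_hasFDerivAt u (hcoord i)
  let A' : Fin m → ((Fin m → ℂ) →L[ℂ] ℂ) := fun j =>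
    (c * u j) • (-(c ^ 2)⁻¹ • ((ContinuousLinearMap.proj (R := ℂ) (φ := fun _ : Fin (m + 1) => ℂ) i).comp
        (L.comp (ins i)))) +
      c⁻¹ • ((ContinuousLinearMap.proj (R := ℂ) (φ := fun _ : Fin (m + 1) => ℂ) (i.succAbove j)).comp
        (L.comp (ins i)))
  refine ⟨ContinuousLinearMap.pi A', ?_, ?_⟩
  · rw [hasFDerivAt_pi]
    intro j
    have h := (hcoord (i.succAbove j)).mul hinv
    rw [hi, hj j] at h
    exact h
  · intro h j
    simp only [ContinuousLinearMap.coe_pi', A', add_apply, smul_apply,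
      ContinuousLinearMap.comp_apply, ContinuousLinearMap.proj_apply, smul_eq_mul]
    field_simp
    ring

/-- An eigenvector of the derivative of the lift modulo the line of the fixed point gives an
eigenvector of the derivative read in the chart. -/
theorem eigen_chart {m : ℕ} (i : Fin (m + 1)) (u : Fin m → ℂ) (L : (Fin (m + 1) → ℂ) →L[ℂ] (Fin (m + 1) → ℂ))
    (c : ℂ) (hc : c ≠ 0) (A : (Fin m → ℂ) →L[ℂ] (Fin m → ℂ))
    (hA : ∀ (h : Fin m → ℂ) (j : Fin m),
        A h j = c⁻¹ * (L (ins i h) (i.succAbove j) - u j * L (ins i h) i))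
    (κ : ℂ) (hLv : L (i.insertNth (α := fun _ => ℂ) 1 u) =
      κ • i.insertNth (α := fun _ => ℂ) 1 u)
    (w : Fin (m + 1) → ℂ) (μ s : ℂ)
    (hLw : L w = (c * μ) • w + s • i.insertNth (α := fun _ => ℂ) 1 u)
    (hw : ∀ a : ℂ, w ≠ a • i.insertNth (α := fun _ => ℂ) 1 u) :
    Module.End.HasEigenvalue (A : (Fin m → ℂ) →ₗ[ℂ] (Fin m → ℂ)) μ := by
  set v : Fin (m + 1) → ℂ := i.insertNth (α := fun _ => ℂ) 1 u with hv
  have hvi : v i = 1 := by simp [hv]
  have hvj : ∀ j, v (i.succAbove j) = u j := by intro j; simp [hv]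
  let h : Fin m → ℂ := fun j => w (i.succAbove j) - w i * u j
  have hins : ins i h = w - w i • v := by
    funext k
    rcases Fin.eq_self_or_eq_succAbove i k with hk | ⟨j, hk⟩
    · rw [hk, ins_same]; simp [hvi]
    · rw [hk, ins_succAbove]; simp [hvj, h]
  have hLh : L (ins i h) = (c * μ) • w + (s - w i * κ) • v := by
    rw [hins, map_sub, map_smul, hLw, hLv, smul_smul, sub_smul]
    abel
  apply Module.End.hasEigenvalue_of_hasEigenvector (x := h)
  rw [Module.End.hasEigenvector_iff, Module.End.mem_eigenspace_iff]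
  constructor
  · funext j
    change A h j = (μ • h) j
    rw [hA, hLh]
    simp only [Pi.add_apply, Pi.smul_apply, smul_eq_mul, hvi, hvj, h]
    field_simp
    ring
  · intro h0
    apply hw (w i)
    have : ins i h = 0 := by rw [h0, map_zero]
    rw [hins] at this
    exact sub_eq_zero.1 this

/-- If `p` is a fixed point in the domain of the `i`-th chart, its normalised representative `v`
satisfies `F(v) = c v` with `c ≠ 0`. -/
theorem fixed_normalised {m d : ℕ} (f : HolMap m d) (p : ℙ ℂ (Fin (m + 1) → ℂ)) (hp : f.map p = p)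
    (i : Fin (m + 1)) (hi : p.rep i ≠ 0) :
    ∃ c : ℂ, c ≠ 0 ∧ f.lift (i.insertNth (α := fun _ => ℂ) 1 (ofPlane i p)) =
      c • i.insertNth (α := fun _ => ℂ) 1 (ofPlane i p) := by
  have hv : i.insertNth (α := fun _ => ℂ) 1 (ofPlane i p) = (p.rep i)⁻¹ • p.rep := by
    funext k
    rcases Fin.eq_self_or_eq_succAbove i k with rfl | ⟨j, rfl⟩
    · simp [hi]
    · simp only [Fin.insertNth_apply_succAbove, ofPlane, Pi.smul_apply, smul_eq_mul]
      field_simp
  have hmap : Projectivization.mk ℂ (f.lift p.rep) (f.lift_ne_zero p.rep_nonzero)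
      = Projectivization.mk ℂ p.rep p.rep_nonzero := by
    rw [Projectivization.mk_rep]; exact hp
  rw [Projectivization.mk_eq_mk_iff'] at hmap
  obtain ⟨a, ha⟩ := hmap
  refine ⟨(p.rep i)⁻¹ ^ d * a * p.rep i, ?_, ?_⟩
  · have ha0 : a ≠ 0 := by
      rintro rfl
      rw [zero_smul] at ha
      exact f.lift_ne_zero p.rep_nonzero ha.symm
    exact mul_ne_zero (mul_ne_zero (pow_ne_zero _ (inv_ne_zero hi)) ha0) hi
  · rw [hv, lift_smul, ← ha, smul_smul, smul_smul]
    congr 1
    field_simp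

theorem two_ne (n : ℕ) : ((n : ℂ) + 2) ≠ 0 := by
  have : ((n + 2 : ℕ) : ℂ) ≠ 0 := Nat.cast_ne_zero.2 (by omega)
  push_cast at this
  exact this

/-- A number whose power of exponent n+2 equals (-1)^(n+1) is at distance at least 2/(n+2) from -1. -/
theorem far_from_neg_one (n : ℕ) (z : ℂ) (hz : z ^ (n + 2) = (-1) ^ (n + 1)) :
    ‖z‖ = 1 ∧ 2 ≤ ((n : ℝ) + 2) * ‖z + 1‖ := by
  have h1 : ‖z‖ = 1 := by
    have h := congrArg norm hz
    rw [norm_pow, norm_pow, norm_neg, norm_one, one_pow] at h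
    exact (pow_eq_one_iff_of_nonneg (norm_nonneg z) (by omega)).1 h
  refine ⟨h1, ?_⟩
  have h2 : (-z) ^ (n + 2) = -1 := by
    rw [neg_pow, hz, ← pow_add]
    have : n + 2 + (n + 1) = 2 * (n + 1) + 1 := by ring
    rw [this, pow_succ, pow_mul]
    norm_num
  have h3 : (∑ k ∈ Finset.range (n + 2), (-z) ^ k) * (-z - 1) = -2 := by
    rw [geom_sum_mul, h2]; norm_num
  have h4 := congrArg norm h3
  rw [norm_mul, norm_neg, Complex.norm_ofNat] at h4
  have h5 : ‖∑ k ∈ Finset.range (n + 2), (-z) ^ k‖ ≤ (n : ℝ) + 2 := by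
    refine (norm_sum_le _ _).trans ?_
    have : ∀ k ∈ Finset.range (n + 2), ‖(-z) ^ k‖ = 1 := by
      intro k _
      rw [norm_pow, norm_neg, h1, one_pow]
    rw [Finset.sum_congr rfl this]
    simp
  have h6 : ‖-z - 1‖ = ‖z + 1‖ := by
    rw [← norm_neg]; congr 1; ring
  rw [h6] at h4
  calc (2 : ℝ) = ‖∑ k ∈ Finset.range (n + 2), (-z) ^ k‖ * ‖z + 1‖ := h4.symm
    _ ≤ ((n : ℝ) + 2) * ‖z + 1‖ := mul_le_mul_of_nonneg_right h5 (norm_nonneg _)

/-- The square root of such a number with negative real part. -/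
theorem exists_root (n : ℕ) (z : ℂ) (hz : z ^ (n + 2) = (-1) ^ (n + 1)) :
    ∃ ζ : ℂ, ζ ^ 2 = z ∧ ζ ≠ 0 ∧ ‖1 + 1 / ((n : ℂ) + 2) * ζ‖ < 1 ∧
      1 < ‖1 - 1 / ((n : ℂ) + 2) * ζ‖ := by
  obtain ⟨h1, h2⟩ := far_from_neg_one n z hz
  obtain ⟨ζ₀, hζ₀⟩ := IsAlgClosed.exists_pow_nat_eq z (n := 2) (by norm_num)
  obtain ⟨ζ, hζ, hre⟩ : ∃ ζ : ℂ, ζ ^ 2 = z ∧ ζ.re ≤ 0 := by
    rcases le_total ζ₀.re 0 with h | h
    · exact ⟨ζ₀, hζ₀, h⟩
    · exact ⟨-ζ₀, by rw [neg_sq, hζ₀], by simpa using h⟩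
  have hnorm : ‖ζ‖ = 1 := by
    have h := congrArg norm hζ
    rw [norm_pow, h1] at h
    exact (pow_eq_one_iff_of_nonneg (norm_nonneg ζ) (by omega)).1 h
  have hsq : ζ.re ^ 2 + ζ.im ^ 2 = 1 := by
    have h := Complex.sq_norm ζ
    rw [hnorm, Complex.normSq_apply] at h
    nlinarith
  have hz1 : ‖z + 1‖ ^ 2 = (2 * ζ.re) ^ 2 := by
    rw [Complex.sq_norm, ← hζ, Complex.normSq_apply]
    simp only [Complex.add_re, Complex.add_im, Complex.one_re, Complex.one_im, pow_two,
      Complex.mul_re, Complex.mul_im]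
    have e1 : ζ.re * ζ.re - ζ.im * ζ.im + 1 = 2 * ζ.re ^ 2 := by nlinarith
    rw [e1]
    nlinarith
  have hN : (0 : ℝ) < (n : ℝ) + 2 := by positivity
  have hz2 : ‖z + 1‖ = -(2 * ζ.re) := by
    have ha : 0 ≤ -(2 * ζ.re) := by linarith
    have hb : ‖z + 1‖ ^ 2 = (-(2 * ζ.re)) ^ 2 := by rw [hz1]; ring
    exact (sq_eq_sq₀ (norm_nonneg _) ha).1 hb
  rw [hz2] at h2
  have hre' : ((n : ℝ) + 2) * ζ.re ≤ -1 := by linarith
  set q : ℝ := 1 / ((n : ℝ) + 2) with hq
  have hqpos : 0 < q := by positivity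
  have hqN : q * ((n : ℝ) + 2) = 1 := by rw [hq]; field_simp
  have hqc : (1 / ((n : ℂ) + 2)) = ((q : ℝ) : ℂ) := by rw [hq]; push_cast; ring
  have hreq : ζ.re ≤ -q := by
    have : q * (((n : ℝ) + 2) * ζ.re) ≤ q * (-1) := mul_le_mul_of_nonneg_left hre' hqpos.le
    rw [← mul_assoc, hqN] at this
    linarith
  refine ⟨ζ, hζ, ?_, ?_, ?_⟩
  · rintro rfl
    simp at hnorm
  · rw [hqc]
    have h : ‖1 + ((q : ℝ) : ℂ) * ζ‖ ^ 2 < 1 ^ 2 := by
      rw [Complex.sq_norm, Complex.normSq_apply]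
      simp only [Complex.add_re, Complex.add_im, Complex.one_re, Complex.one_im, Complex.mul_re,
        Complex.mul_im, Complex.ofReal_re, Complex.ofReal_im]
      nlinarith [mul_le_mul_of_nonneg_left hreq hqpos.le, mul_pos hqpos hqpos]
    exact lt_of_pow_lt_pow_left₀ 2 (by norm_num) h
  · rw [hqc]
    have h : 1 ^ 2 < ‖1 - ((q : ℝ) : ℂ) * ζ‖ ^ 2 := by
      rw [Complex.sq_norm, Complex.normSq_apply]
      simp only [Complex.sub_re, Complex.sub_im, Complex.one_re, Complex.one_im, Complex.mul_re,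
        Complex.mul_im, Complex.ofReal_re, Complex.ofReal_im]
      nlinarith [mul_le_mul_of_nonneg_left hreq hqpos.le, mul_pos hqpos hqpos]
    exact lt_of_pow_lt_pow_left₀ 2 (norm_nonneg _) h


/-- the signs: `-1` at the place `0`, `1` at the others -/
noncomputable def sg {r : ℕ} (i : Fin (r + 2)) : ℂ := if i = 0 then -1 else 1

theorem prod_sg (r : ℕ) : ∏ i : Fin (r + 2), sg i = -1 := by
  unfold sg
  rw [Finset.prod_ite_eq' Finset.univ 0 (fun _ => (-1 : ℂ))]
  simp

/-- The polynomials of the example in dimension `r + 2` and degree `n + 2`, with `e = 1/(n+2)^2`: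
`t^(n+2)` and `x_i t^(n+1) + e (x_{i+1}^(n+2) - s_i t^(n+2))` (`i` modulo `r + 2`). -/
noncomputable def exF (r n : ℕ) : Fin (r + 3) → MvPolynomial (Fin (r + 3)) ℂ :=
  Fin.cons (MvPolynomial.X 0 ^ (n + 2)) (fun i : Fin (r + 2) =>
    MvPolynomial.X i.succ * MvPolynomial.X 0 ^ (n + 1) +
      MvPolynomial.C (1 / ((n : ℂ) + 2) ^ 2) *
        (MvPolynomial.X (i + 1).succ ^ (n + 2) -
          MvPolynomial.C (sg i) * MvPolynomial.X 0 ^ (n + 2)))

theorem eval_exF_zero (r n : ℕ) (z : Fin (r + 3) → ℂ) :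
    MvPolynomial.eval z (exF r n 0) = z 0 ^ (n + 2) := by
  simp [exF]

theorem eval_exF_succ (r n : ℕ) (z : Fin (r + 3) → ℂ) (i : Fin (r + 2)) :
    MvPolynomial.eval z (exF r n i.succ) = z i.succ * z 0 ^ (n + 1) +
      1 / ((n : ℂ) + 2) ^ 2 * (z (i + 1).succ ^ (n + 2) - sg i * z 0 ^ (n + 2)) := by
  simp [exF]

/-- The example as a holomorphic self-map of `P^(r+2)` of degree `n + 2`. -/
noncomputable def exMap (r n : ℕ) : HolMap (r + 2) (n + 2) where
  F := exF r n
  homogeneous := by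
    have hX : ∀ (k : Fin (r + 3)) (m : ℕ),
        (MvPolynomial.X k ^ m : MvPolynomial (Fin (r + 3)) ℂ).IsHomogeneous m := by
      intro k m
      have := (MvPolynomial.isHomogeneous_X ℂ k).pow m
      simpa using this
    have hC : ∀ (a : ℂ) (P : MvPolynomial (Fin (r + 3)) ℂ) (m : ℕ), P.IsHomogeneous m →
        (MvPolynomial.C a * P).IsHomogeneous m := by
      intro a P m hP
      have := (MvPolynomial.isHomogeneous_C (Fin (r + 3)) a).mul hP
      simpa using this
    have h1 : ∀ k : Fin (r + 3),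
        (MvPolynomial.X k * MvPolynomial.X 0 ^ (n + 1) :
          MvPolynomial (Fin (r + 3)) ℂ).IsHomogeneous (n + 2) := by
      intro k
      have := (MvPolynomial.isHomogeneous_X ℂ k).mul (hX 0 (n + 1))
      have e : 1 + (n + 1) = n + 2 := by omega
      rwa [e] at this
    intro i
    refine Fin.cases ?_ (fun i => ?_) i
    · exact hX 0 _
    · exact (h1 i.succ).add (hC _ _ _ ((hX (i + 1).succ _).sub (hC _ _ _ (hX 0 _))))
  onlyZero := by
    intro z hz
    have h0 : z 0 = 0 := by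
      have h := hz 0
      rw [eval_exF_zero] at h
      exact pow_eq_zero_iff (by omega) |>.1 h
    have h1 : ∀ i : Fin (r + 2), z (i + 1).succ = 0 := by
      intro i
      have h := hz i.succ
      rw [eval_exF_succ, h0] at h
      have h2 : 1 / ((n : ℂ) + 2) ^ 2 ≠ 0 := one_div_ne_zero (pow_ne_zero 2 (two_ne n))
      have h3 : z (i + 1).succ ^ (n + 2) = 0 := by
        simp only [zero_pow (show n + 1 ≠ 0 by omega), zero_pow (show n + 2 ≠ 0 by omega), mul_zero,
          sub_zero, zero_add] at h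
        exact (mul_eq_zero.1 h).resolve_left h2
      exact pow_eq_zero_iff (by omega) |>.1 h3
    funext k
    refine Fin.cases ?_ (fun i => ?_) k
    · exact h0
    · have h := h1 (i - 1)
      rwa [sub_add_cancel] at h

theorem lift_zero (r n : ℕ) (z : Fin (r + 3) → ℂ) : (exMap r n).lift z 0 = z 0 ^ (n + 2) :=
  eval_exF_zero r n z

theorem lift_succ (r n : ℕ) (z : Fin (r + 3) → ℂ) (i : Fin (r + 2)) :
    (exMap r n).lift z i.succ = z i.succ * z 0 ^ (n + 1) +
      1 / ((n : ℂ) + 2) ^ 2 * (z (i + 1).succ ^ (n + 2) - sg i * z 0 ^ (n + 2)) :=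
  eval_exF_succ r n z i

/-- The derivative of the lift, as a function. -/
noncomputable def dl (r n : ℕ) (z w : Fin (r + 3) → ℂ) : Fin (r + 3) → ℂ :=
  Fin.cons (((n : ℂ) + 2) * z 0 ^ (n + 1) * w 0) (fun i : Fin (r + 2) =>
    z 0 ^ (n + 1) * w i.succ + z i.succ * (((n : ℂ) + 1) * z 0 ^ n) * w 0 +
      1 / ((n : ℂ) + 2) * (z (i + 1).succ ^ (n + 1) * w (i + 1).succ - sg i * z 0 ^ (n + 1) * w 0))

theorem dl_zero (r n : ℕ) (z w : Fin (r + 3) → ℂ) :
    dl r n z w 0 = ((n : ℂ) + 2) * z 0 ^ (n + 1) * w 0 := rfl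

theorem dl_succ (r n : ℕ) (z w : Fin (r + 3) → ℂ) (i : Fin (r + 2)) :
    dl r n z w i.succ = z 0 ^ (n + 1) * w i.succ + z i.succ * (((n : ℂ) + 1) * z 0 ^ n) * w 0 +
      1 / ((n : ℂ) + 2) * (z (i + 1).succ ^ (n + 1) * w (i + 1).succ -
        sg i * z 0 ^ (n + 1) * w 0) := rfl

/-- The derivative of the lift. -/
noncomputable def DL (r n : ℕ) (z : Fin (r + 3) → ℂ) :
    (Fin (r + 3) → ℂ) →L[ℂ] (Fin (r + 3) → ℂ) :=
  LinearMap.toContinuousLinearMap
    { toFun := dl r n z
      map_add' := by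
        intro x y
        funext k
        refine Fin.cases ?_ (fun i => ?_) k
        · simp only [dl_zero, Pi.add_apply]; ring
        · simp only [dl_succ, Pi.add_apply]; ring
      map_smul' := by
        intro a x
        funext k
        refine Fin.cases ?_ (fun i => ?_) k
        · simp only [dl_zero, Pi.smul_apply, smul_eq_mul, RingHom.id_apply]; ring
        · simp only [dl_succ, Pi.smul_apply, smul_eq_mul, RingHom.id_apply]; ring }

theorem DL_apply (r n : ℕ) (z w : Fin (r + 3) → ℂ) : DL r n z w = dl r n z w := rfl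

theorem hasFDerivAt_lift (r n : ℕ) (z : Fin (r + 3) → ℂ) :
    HasFDerivAt (exMap r n).lift (DL r n z) z := by
  apply hasFDerivAt_pi''
  intro k
  have h0 : HasFDerivAt (fun w : Fin (r + 3) → ℂ => w 0)
      (ContinuousLinearMap.proj (R := ℂ) (φ := fun _ : Fin (r + 3) => ℂ) 0) z := hasFDerivAt_apply 0 z
  have hn := two_ne n
  refine Fin.cases ?_ (fun i => ?_) k
  · have h := (h0.pow (n + 2))
    have hfun : (fun w : Fin (r + 3) → ℂ => (exMap r n).lift w 0) = fun w => w 0 ^ (n + 2) := by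
      funext w; exact lift_zero r n w
    rw [hfun]
    refine (h.congr_fderiv ?_)
    ext w
    simp [DL_apply, dl_zero]
  · have hi : HasFDerivAt (fun w : Fin (r + 3) → ℂ => w i.succ)
      (ContinuousLinearMap.proj (R := ℂ) (φ := fun _ : Fin (r + 3) => ℂ) i.succ) z :=
        hasFDerivAt_apply i.succ z
    have hj : HasFDerivAt (fun w : Fin (r + 3) → ℂ => w (i + 1).succ)
      (ContinuousLinearMap.proj (R := ℂ) (φ := fun _ : Fin (r + 3) => ℂ) (i + 1).succ) z :=
        hasFDerivAt_apply (i + 1).succ z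
    have h := (hi.mul (h0.pow (n + 1))).add
      (((hj.pow (n + 2)).sub ((h0.pow (n + 2)).const_mul (sg i))).const_mul
        (1 / ((n : ℂ) + 2) ^ 2))
    have hfun : (fun w : Fin (r + 3) → ℂ => (exMap r n).lift w i.succ) = fun w =>
        w i.succ * w 0 ^ (n + 1) +
      1 / ((n : ℂ) + 2) ^ 2 * (w (i + 1).succ ^ (n + 2) - sg i * w 0 ^ (n + 2)) := by
      funext w; exact lift_succ r n w i
    rw [hfun]
    refine (h.congr_fderiv ?_)
    ext w
    simp [DL_apply, dl_succ]
    field_simp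
    ring

/-- `k`-th roots (`k ≥ 3`) in the two half planes. -/
theorem exists_roots3 (k : ℕ) (hk : 3 ≤ k) (w : ℂ) (hw : ‖w‖ = 1) :
    (∃ ζ : ℂ, ζ ^ k = w ∧ ‖ζ‖ = 1 ∧ ζ.re ≤ -1 / 2) ∧
      ∃ ζ : ℂ, ζ ^ k = w ∧ ‖ζ‖ = 1 ∧ 1 / 2 ≤ ζ.re := by
  obtain ⟨ζ₀, hζ₀⟩ := IsAlgClosed.exists_pow_nat_eq w (n := k) (by omega)
  set ω : ℂ := Complex.exp (2 * Real.pi * Complex.I / k) with hω
  have hprim : IsPrimitiveRoot ω k := Complex.isPrimitiveRoot_exp k (by omega)
  have hωk : ω ^ k = 1 := hprim.pow_eq_one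
  have hω1 : ‖ω‖ = 1 := by
    have h := congrArg norm hωk
    rw [norm_pow, norm_one] at h
    exact (pow_eq_one_iff_of_nonneg (norm_nonneg _) (by omega)).1 h
  have hζ₀1 : ‖ζ₀‖ = 1 := by
    have h := congrArg norm hζ₀
    rw [norm_pow, hw] at h
    exact (pow_eq_one_iff_of_nonneg (norm_nonneg _) (by omega)).1 h
  set ζ : ℕ → ℂ := fun j => ζ₀ * ω ^ j with hζ
  have hζk : ∀ j, ζ j ^ k = w := by
    intro j
    rw [hζ]
    simp only
    rw [mul_pow, hζ₀, ← pow_mul, mul_comm j k, pow_mul, hωk, one_pow, mul_one]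
  have hζ1 : ∀ j, ‖ζ j‖ = 1 := by
    intro j
    rw [hζ]
    simp only
    rw [norm_mul, norm_pow, hω1, hζ₀1, one_pow, mul_one]
  have hs1 : ∑ j ∈ Finset.range k, ζ j = 0 := by
    rw [hζ, ← Finset.mul_sum, hprim.geom_sum_eq_zero (by omega), mul_zero]
  have hs2 : ∑ j ∈ Finset.range k, ζ j ^ 2 = 0 := by
    have e1 : ∀ j ∈ Finset.range k, ζ j ^ 2 = ζ₀ ^ 2 * (ω ^ 2) ^ j := by
      intro j _
      rw [hζ]
      simp only
      rw [mul_pow, ← pow_mul, ← pow_mul, mul_comm j 2]
    rw [Finset.sum_congr rfl e1, ← Finset.mul_sum]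
    have h2 : ω ^ 2 ≠ 1 := by
      intro h
      have h3 := (hprim.pow_eq_one_iff_dvd 2).1 h
      have := Nat.le_of_dvd (by norm_num) h3
      omega
    have h3 : (∑ j ∈ Finset.range k, (ω ^ 2) ^ j) * (ω ^ 2 - 1) = 0 := by
      rw [geom_sum_mul, ← pow_mul, mul_comm 2 k, pow_mul, hωk]
      simp
    rcases mul_eq_zero.1 h3 with h | h
    · rw [h, mul_zero]
    · exact absurd (sub_eq_zero.1 h) h2
  have hr1 : ∑ j ∈ Finset.range k, (ζ j).re = 0 := by
    rw [← Complex.re_sum, hs1, Complex.zero_re]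
  have hr2 : ∑ j ∈ Finset.range k, (ζ j).re ^ 2 = (k : ℝ) / 2 := by
    have e1 : ∀ j ∈ Finset.range k, (ζ j).re ^ 2 = 1 / 2 + (ζ j ^ 2).re / 2 := by
      intro j _
      have h := Complex.sq_norm (ζ j)
      rw [hζ1, Complex.normSq_apply] at h
      have h2 : (ζ j ^ 2).re = (ζ j).re * (ζ j).re - (ζ j).im * (ζ j).im := by
        rw [pow_two, Complex.mul_re]
      rw [h2]
      linarith [h, pow_two (ζ j).re]
    have e2 : ∑ x ∈ Finset.range k, (ζ x ^ 2).re / 2 = 0 := by
      rw [← Finset.sum_div, ← Complex.re_sum, hs2]; simp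
    rw [Finset.sum_congr rfl e1, Finset.sum_add_distrib, e2, Finset.sum_const, Finset.card_range,
      nsmul_eq_mul]
    ring
  have hle : ∀ j, (ζ j).re ≤ 1 := fun j => (Complex.re_le_norm _).trans (hζ1 j).le
  have hge : ∀ j, -1 ≤ (ζ j).re := fun j => by
    have := Complex.abs_re_le_norm (ζ j)
    rw [hζ1, abs_le] at this
    exact this.1
  have hkr : (0 : ℝ) < k := by exact_mod_cast (by omega : 0 < k)
  constructor
  · by_contra hcon
    push Not at hcon
    have h1 : ∀ j, -1 / 2 < (ζ j).re := fun j => hcon (ζ j) (hζk j) (hζ1 j)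
    have h2 : ∑ j ∈ Finset.range k, ((ζ j).re + 1 / 2) * (1 - (ζ j).re) = 0 := by
      have e1 : ∀ j ∈ Finset.range k, ((ζ j).re + 1 / 2) * (1 - (ζ j).re) =
          1 / 2 * (ζ j).re - (ζ j).re ^ 2 + 1 / 2 := by
        intro j _; ring
      rw [Finset.sum_congr rfl e1, Finset.sum_add_distrib, Finset.sum_sub_distrib, ← Finset.mul_sum,
        hr1, hr2]
      simp
      ring
    have h3 := (Finset.sum_eq_zero_iff_of_nonneg (fun j _ =>
      mul_nonneg (by linarith [h1 j]) (by linarith [hle j]))).1 h2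
    have h4 : ∀ j ∈ Finset.range k, (ζ j).re = 1 := by
      intro j hj
      rcases mul_eq_zero.1 (h3 j hj) with h | h
      · linarith [h1 j]
      · linarith
    rw [Finset.sum_congr rfl h4] at hr1
    simp at hr1
    omega
  · by_contra hcon
    push Not at hcon
    have h1 : ∀ j, (ζ j).re < 1 / 2 := fun j => hcon (ζ j) (hζk j) (hζ1 j)
    have h2 : ∑ j ∈ Finset.range k, (1 / 2 - (ζ j).re) * (1 + (ζ j).re) = 0 := by
      have e1 : ∀ j ∈ Finset.range k, (1 / 2 - (ζ j).re) * (1 + (ζ j).re) =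
          1 / 2 - 1 / 2 * (ζ j).re - (ζ j).re ^ 2 := by
        intro j _; ring
      rw [Finset.sum_congr rfl e1, Finset.sum_sub_distrib, Finset.sum_sub_distrib, ← Finset.mul_sum,
        hr1, hr2]
      simp
      ring
    have h3 := (Finset.sum_eq_zero_iff_of_nonneg (fun j _ =>
      mul_nonneg (by linarith [h1 j]) (by linarith [hge j]))).1 h2
    have h4 : ∀ j ∈ Finset.range k, (ζ j).re = -1 := by
      intro j hj
      rcases mul_eq_zero.1 (h3 j hj) with h | h
      · linarith [h1 j]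
      · linarith
    rw [Finset.sum_congr rfl h4] at hr1
    simp at hr1
    omega

/-- The roots used in the example. -/
theorem exists_roots (r n : ℕ) (w : ℂ) (hw : w ^ (n + 2) = (-1) ^ (n + 1)) :
    (∃ ζ : ℂ, ζ ^ (r + 2) = w ∧ ζ ≠ 0 ∧ ‖1 + 1 / ((n : ℂ) + 2) * ζ‖ < 1) ∧
      ∃ ζ : ℂ, ζ ^ (r + 2) = w ∧ ζ ≠ 0 ∧ 1 < ‖1 + 1 / ((n : ℂ) + 2) * ζ‖ := by
  rcases Nat.eq_zero_or_pos r with hr | hr
  · subst hr
    obtain ⟨ζ, h1, h2, h3, h4⟩ := exists_root n w hw
    refine ⟨⟨ζ, h1, h2, h3⟩, -ζ, ?_, neg_ne_zero.2 h2, ?_⟩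
    · rw [← h1]; ring
    · rw [mul_neg, ← sub_eq_add_neg]; exact h4
  · obtain ⟨⟨ζ, h1, h2, h3⟩, ζ', h1', h2', h3'⟩ :=
      exists_roots3 (r + 2) (by omega) w (far_from_neg_one n w hw).1
    set q : ℝ := 1 / ((n : ℝ) + 2) with hq
    have hqpos : 0 < q := by positivity
    have hq1 : q ≤ 1 / 2 := by
      rw [hq]
      apply one_div_le_one_div_of_le (by norm_num)
      have : (0 : ℝ) ≤ n := Nat.cast_nonneg n
      linarith
    have hqc : (1 / ((n : ℂ) + 2)) = ((q : ℝ) : ℂ) := by rw [hq]; push_cast; ring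
    have hn0 : ∀ z : ℂ, ‖z‖ = 1 → z ≠ 0 := by
      rintro z hz rfl
      simp at hz
    have hsq : ∀ z : ℂ, ‖z‖ = 1 → ‖1 + ((q : ℝ) : ℂ) * z‖ ^ 2 = 1 + 2 * q * z.re + q ^ 2 := by
      intro z hz
      have h := Complex.sq_norm z
      rw [hz, Complex.normSq_apply] at h
      rw [Complex.sq_norm, Complex.normSq_apply]
      simp only [Complex.add_re, Complex.add_im, Complex.one_re, Complex.one_im, Complex.mul_re,
        Complex.mul_im, Complex.ofReal_re, Complex.ofReal_im]
      linear_combination (-q ^ 2) * h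
    refine ⟨⟨ζ, h1, hn0 ζ h2, ?_⟩, ζ', h1', hn0 ζ' h2', ?_⟩
    · rw [hqc]
      have h : ‖1 + ((q : ℝ) : ℂ) * ζ‖ ^ 2 < 1 ^ 2 := by
        rw [hsq ζ h2]
        nlinarith
      exact lt_of_pow_lt_pow_left₀ 2 (by norm_num) h
    · rw [hqc]
      have h : 1 ^ 2 < ‖1 + ((q : ℝ) : ℂ) * ζ'‖ ^ 2 := by
        rw [hsq ζ' h2']
        nlinarith
      exact lt_of_pow_lt_pow_left₀ 2 (norm_nonneg _) h

/-- Adding one in `Fin (r + 2)`. -/
theorem val_succ_cases {r : ℕ} (i : Fin (r + 2)) :
    (i.val + 1 < r + 2 ∧ (i + 1).val = i.val + 1) ∨ (i.val + 1 = r + 2 ∧ i + 1 = 0) := by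
  rcases Nat.lt_or_ge (i.val + 1) (r + 2) with h | h
  · left
    refine ⟨h, ?_⟩
    rw [Fin.val_add, Fin.val_one, Nat.mod_eq_of_lt h]
  · right
    have h1 : i.val + 1 = r + 2 := by have := i.isLt; omega
    refine ⟨h1, ?_⟩
    apply Fin.ext
    rw [Fin.val_add, Fin.val_one, h1, Nat.mod_self]
    rfl

/-- the residue class of a natural number -/
def cc (r l : ℕ) : Fin (r + 2) := ⟨l % (r + 2), Nat.mod_lt _ (by omega)⟩

theorem cc_val {r : ℕ} (i : Fin (r + 2)) : cc r i.val = i :=
  Fin.ext (Nat.mod_eq_of_lt i.isLt)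

theorem cc_succ (r l : ℕ) : cc r (l + 1) = cc r l + 1 := by
  apply Fin.ext
  rw [Fin.val_add, Fin.val_one]
  show (l + 1) % (r + 2) = (l % (r + 2) + 1) % (r + 2)
  rw [Nat.mod_add_mod]

/-- Linear algebra at the fixed points of the example: modulo the line of the fixed point, the
derivative of the lift has an eigenvalue inside and an eigenvalue outside the unit circle. -/
theorem eigen_lift (r n : ℕ) (v : Fin (r + 3) → ℂ) (hv : v ≠ 0) (c : ℂ)
    (hfix : (exMap r n).lift v = c • v) :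
    (∃ κ : ℂ, DL r n v v = κ • v) ∧
    ∃ (μ₁ μ₂ : ℂ) (w₁ w₂ : Fin (r + 3) → ℂ) (s₁ s₂ : ℂ),
      ‖μ₁‖ < 1 ∧ 1 < ‖μ₂‖ ∧
      DL r n v w₁ = (c * μ₁) • w₁ + s₁ • v ∧ (∀ a : ℂ, w₁ ≠ a • v) ∧
      DL r n v w₂ = (c * μ₂) • w₂ + s₂ • v ∧ (∀ a : ℂ, w₂ ≠ a • v) := by
  have hn := two_ne n
  have e0 : v 0 ^ (n + 2) = c * v 0 := by
    have := congrFun hfix 0
    rwa [lift_zero] at this
  have e1 : ∀ i : Fin (r + 2), v i.succ * v 0 ^ (n + 1) +
      1 / ((n : ℂ) + 2) ^ 2 * (v (i + 1).succ ^ (n + 2) - sg i * v 0 ^ (n + 2)) =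
        c * v i.succ := by
    intro i
    have := congrFun hfix i.succ
    rwa [lift_succ] at this
  refine ⟨⟨((n : ℂ) + 2) * c, ?_⟩, ?_⟩
  · funext k
    refine Fin.cases ?_ (fun i => ?_) k
    · simp only [DL_apply, dl_zero, Pi.smul_apply, smul_eq_mul]
      rw [mul_assoc ((n : ℂ) + 2) c, ← e0]
      ring
    · simp only [DL_apply, dl_succ, Pi.smul_apply, smul_eq_mul]
      rw [mul_assoc ((n : ℂ) + 2) c, ← e1]
      field_simp
      ring
  · by_cases ht0 : v 0 = 0
    · have e2 : ∀ i : Fin (r + 2), v (i + 1).succ ^ (n + 2) = ((n : ℂ) + 2) ^ 2 * (c * v i.succ) := by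
        intro i
        rw [← e1 i, ht0, zero_pow (show n + 1 ≠ 0 by omega), zero_pow (show n + 2 ≠ 0 by omega)]
        field_simp
        ring
      have hall : ∀ j : Fin (r + 2), v j.succ ≠ 0 := by
        intro j hj
        apply hv
        have h1 : ∀ l : ℕ, v (j + cc r l).succ = 0 := by
          intro l
          induction l with
          | zero =>
            have h0 : cc r 0 = 0 := rfl
            rw [h0, add_zero]; exact hj
          | succ l ih =>
            have h2 := e2 (j + cc r l)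
            rw [ih, mul_zero, mul_zero] at h2
            have h3 : j + cc r (l + 1) = j + cc r l + 1 := by
              rw [cc_succ, add_assoc]
            rw [h3]
            exact pow_eq_zero_iff (by omega) |>.1 h2
        funext k
        refine Fin.cases ?_ (fun i => ?_) k
        · exact ht0
        · have h2 := h1 (i - j).val
          rw [cc_val, add_sub_cancel] at h2
          exact h2
      set ω : ℂ := Complex.exp (2 * Real.pi * Complex.I / ((r + 2 : ℕ) : ℂ)) with hω
      have hprim : IsPrimitiveRoot ω (r + 2) := Complex.isPrimitiveRoot_exp (r + 2) (by omega)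
      have hωk : ω ^ (r + 2) = 1 := hprim.pow_eq_one
      have hω1 : ‖ω‖ = 1 := by
        have h := congrArg norm hωk
        rw [norm_pow, norm_one] at h
        exact (pow_eq_one_iff_of_nonneg (norm_nonneg _) (by omega)).1 h
      have hωne : ω ≠ 1 := hprim.ne_one (by omega)
      refine ⟨0, ((n : ℂ) + 2) * ω, Pi.single 0 1,
        Fin.cons 0 (fun i : Fin (r + 2) => ω ^ i.val * v i.succ), ((n : ℂ) + 1) * v 0 ^ n, 0,
        ?_, ?_, ?_, ?_, ?_, ?_⟩
      · simp
      · rw [norm_mul, hω1, mul_one]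
        have : ((n : ℂ) + 2) = ((n + 2 : ℕ) : ℂ) := by push_cast; ring
        rw [this, Complex.norm_natCast]
        push_cast
        have : (0 : ℝ) ≤ n := Nat.cast_nonneg n
        linarith
      · funext k
        refine Fin.cases ?_ (fun i => ?_) k
        · simp only [DL_apply, dl_zero, Pi.add_apply, Pi.smul_apply, smul_eq_mul, ht0]
          simp
        · simp only [DL_apply, dl_succ, Pi.add_apply, Pi.smul_apply, smul_eq_mul, ht0]
          simp
          ring
      · intro a h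
        have := congrFun h 0
        simp [ht0] at this
      · funext k
        refine Fin.cases ?_ (fun i => ?_) k
        · simp only [DL_apply, dl_zero, Pi.add_apply, Pi.smul_apply, smul_eq_mul, ht0, Fin.cons_zero]
          ring
        · simp only [DL_apply, dl_succ, Pi.add_apply, Pi.smul_apply, smul_eq_mul, ht0, Fin.cons_zero,
            Fin.cons_succ]
          have hval : ω ^ (i + 1).val = ω ^ i.val * ω := by
            rcases val_succ_cases i with ⟨_, h⟩ | ⟨h, h'⟩
            · rw [h, pow_succ]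
            · rw [h', ← pow_succ, h, hωk]
              rfl
          rw [hval, zero_pow (show n + 1 ≠ 0 by omega)]
          have h3 : v (i + 1).succ ^ (n + 1) * (ω ^ i.val * ω * v (i + 1).succ) =
              ω ^ i.val * ω * v (i + 1).succ ^ (n + 2) := by ring
          rw [h3, e2 i]
          field_simp
          ring
      · intro a h
        have h0 := congrFun h (0 : Fin (r + 2)).succ
        have h1 := congrFun h (1 : Fin (r + 2)).succ
        simp only [Fin.cons_succ, Pi.smul_apply, smul_eq_mul] at h0 h1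
        have ha : a = 1 := by
          have h2 : (a - 1) * v (0 : Fin (r + 2)).succ = 0 := by
            simp only [Fin.val_zero, pow_zero, one_mul] at h0
            linear_combination -h0
          rcases mul_eq_zero.1 h2 with h' | h'
          · exact sub_eq_zero.1 h'
          · exact absurd h' (hall 0)
        rw [ha] at h1
        have h2 : (ω - 1) * v (1 : Fin (r + 2)).succ = 0 := by
          simp only [Fin.val_one, pow_one, one_mul] at h1
          linear_combination h1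
        rcases mul_eq_zero.1 h2 with h' | h'
        · exact hωne (sub_eq_zero.1 h')
        · exact hall 1 h'
    · have hct : c = v 0 ^ (n + 1) := by
        have : (v 0 ^ (n + 1) - c) * v 0 = 0 := by rw [sub_mul, ← pow_succ, e0, sub_self]
        rcases mul_eq_zero.1 this with h' | h'
        · exact (sub_eq_zero.1 h').symm
        · exact absurd h' ht0
      have hx : ∀ i : Fin (r + 2), v (i + 1).succ ^ (n + 2) = sg i * v 0 ^ (n + 2) := by
        intro i
        have h := e1 i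
        rw [hct] at h
        have h' : 1 / ((n : ℂ) + 2) ^ 2 * (v (i + 1).succ ^ (n + 2) - sg i * v 0 ^ (n + 2)) = 0 := by
          linear_combination h
        rcases mul_eq_zero.1 h' with h' | h'
        · exact absurd h' (one_div_ne_zero (pow_ne_zero 2 hn))
        · exact sub_eq_zero.1 h'
      have htp : v 0 ^ (n + 1) ≠ 0 := pow_ne_zero _ ht0
      -- the cyclic product
      set P : ℂ := ∏ i : Fin (r + 2), v (i + 1).succ ^ (n + 1) with hP
      set X : ℕ → ℂ := fun j => v (cc r j + 1).succ ^ (n + 1) with hX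
      have hPX : P = ∏ j ∈ Finset.Ico 0 (r + 2), X j := by
        rw [hP, ← Finset.range_eq_Ico, ← Fin.prod_univ_eq_prod_range X (r + 2)]
        refine Finset.prod_congr rfl fun i _ => ?_
        rw [hX]
        simp only [cc_val]
      have hPow : (P / (v 0 ^ (n + 1)) ^ (r + 2)) ^ (n + 2) = (-1) ^ (n + 1) := by
        have h1 : P ^ (n + 2) = (-1) ^ (n + 1) * ((v 0 ^ (n + 1)) ^ (r + 2)) ^ (n + 2) := by
          rw [hP, ← Finset.prod_pow]
          have h2 : ∀ i ∈ (Finset.univ : Finset (Fin (r + 2))), (v (i + 1).succ ^ (n + 1)) ^ (n + 2) =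
              sg i ^ (n + 1) * (v 0 ^ (n + 2)) ^ (n + 1) := by
            intro i _
            rw [← pow_mul, mul_comm (n + 1) (n + 2), pow_mul, hx i, mul_pow]
          rw [Finset.prod_congr rfl h2, Finset.prod_mul_distrib, Finset.prod_pow, prod_sg,
            Finset.prod_const, Finset.card_univ, Fintype.card_fin]
          congr 1
          rw [← pow_mul, ← pow_mul, ← pow_mul, ← pow_mul]
          congr 1
          ring
        rw [div_pow, h1, mul_div_assoc, div_self (pow_ne_zero _ (pow_ne_zero _ htp)), mul_one]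
      have key : ∀ ζ : ℂ, ζ ^ (r + 2) = P / (v 0 ^ (n + 1)) ^ (r + 2) → ζ ≠ 0 →
          ∃ w : Fin (r + 3) → ℂ,
            DL r n v w = (c * (1 + 1 / ((n : ℂ) + 2) * ζ)) • w + (0 : ℂ) • v ∧
              ∀ a : ℂ, w ≠ a • v := by
        intro ζ hζ hζ0
        set lam : ℂ := ζ * v 0 ^ (n + 1) with hlam
        have hlam0 : lam ≠ 0 := mul_ne_zero hζ0 htp
        have hlamP : lam ^ (r + 2) = P := by
          rw [hlam, mul_pow, hζ, div_mul_cancel₀ _ (pow_ne_zero _ htp)]
        have hXne : ∀ j, X j ≠ 0 := by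
          intro j hj
          have h1 := hx (cc r j)
          have h2 : v (cc r j + 1).succ = 0 := by
            rw [hX] at hj
            exact pow_eq_zero_iff (by omega) |>.1 hj
          rw [h2, zero_pow (show n + 2 ≠ 0 by omega)] at h1
          have h3 : sg (cc r j) ≠ 0 := by
            unfold sg; split_ifs <;> norm_num
          exact mul_ne_zero h3 (pow_ne_zero _ ht0) h1.symm
        set w : Fin (r + 3) → ℂ := Fin.cons 0 (fun i : Fin (r + 2) =>
          lam ^ i.val * ∏ j ∈ Finset.Ico i.val (r + 2), X j) with hw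
        have hw0 : w 0 = 0 := rfl
        have hws : ∀ i : Fin (r + 2), w i.succ = lam ^ i.val * ∏ j ∈ Finset.Ico i.val (r + 2), X j :=
          fun i => rfl
        have hrec : ∀ i : Fin (r + 2), v (i + 1).succ ^ (n + 1) * w (i + 1).succ =
            lam * w i.succ := by
          intro i
          have hXi : v (i + 1).succ ^ (n + 1) = X i.val := by
            rw [hX]
            simp only [cc_val]
          rw [hws, hws, hXi, Finset.prod_eq_prod_Ico_succ_bot i.isLt]
          rcases val_succ_cases i with ⟨_, h⟩ | ⟨h, h'⟩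
          · rw [h, pow_succ]
            ring
          · rw [h', h, Finset.Ico_self, Finset.prod_empty, mul_one]
            simp only [Fin.val_zero, pow_zero, one_mul]
            rw [← hPX, ← hlamP]
            have h4 : lam ^ (r + 2) = lam * lam ^ i.val := by
              rw [← pow_succ', h]
            rw [h4]
            ring
        refine ⟨w, ?_, ?_⟩
        · funext k
          refine Fin.cases ?_ (fun i => ?_) k
          · simp only [DL_apply, dl_zero, Pi.add_apply, Pi.smul_apply, smul_eq_mul, hw0]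
            ring
          · simp only [DL_apply, dl_succ, Pi.add_apply, Pi.smul_apply, smul_eq_mul, hw0]
            rw [hrec i, hct, hlam]
            field_simp
            ring
        · intro a h
          have h0 := congrFun h 0
          simp only [hw0, Pi.smul_apply, smul_eq_mul] at h0
          have ha : a = 0 := by
            rcases mul_eq_zero.1 h0.symm with h' | h'
            · exact h'
            · exact absurd h' ht0
          have h1 := congrFun h (0 : Fin (r + 2)).succ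
          rw [hws, ha] at h1
          simp only [Fin.val_zero, pow_zero, one_mul, Pi.smul_apply, smul_eq_mul, zero_mul] at h1
          exact Finset.prod_ne_zero_iff.2 (fun j _ => hXne j) h1
      obtain ⟨⟨ζ₁, h1, h1', h1''⟩, ζ₂, h2, h2', h2''⟩ :=
        exists_roots r n (P / (v 0 ^ (n + 1)) ^ (r + 2)) hPow
      obtain ⟨w₁, hw₁, hn₁⟩ := key ζ₁ h1 h1'
      obtain ⟨w₂, hw₂, hn₂⟩ := key ζ₂ h2 h2'
      exact ⟨_, _, w₁, w₂, 0, 0, h1'', h2'', hw₁, hn₁, hw₂, hn₂⟩

/-- In every dimension `k ≥ 2` and every degree `d ≥ 2` there is a holomorphic self-map of `P^k` of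
degree `d` all of whose fixed points are saddles: read in any standard affine chart containing the
fixed point, the derivative has an eigenvalue of modulus `< 1` and an eigenvalue of modulus `> 1`.
In particular the map has neither a repelling nor an attracting fixed point. -/
theorem result : ∀ k d : ℕ, 2 ≤ k → 2 ≤ d → ∃ f : HolMap k d,
    ∀ p : ℙ ℂ (Fin (k + 1) → ℂ), f.map p = p → ∀ i : Fin (k + 1), p.rep i ≠ 0 →
      ∃ A : (Fin k → ℂ) →L[ℂ] (Fin k → ℂ), HasFDerivAt (f.inChart i) A (ofPlane i p) ∧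
        ∃ μ₁ μ₂ : ℂ, Module.End.HasEigenvalue (A : (Fin k → ℂ) →ₗ[ℂ] (Fin k → ℂ)) μ₁ ∧
          Module.End.HasEigenvalue (A : (Fin k → ℂ) →ₗ[ℂ] (Fin k → ℂ)) μ₂ ∧
          ‖μ₁‖ < 1 ∧ 1 < ‖μ₂‖ := by
  intro k d hk hd
  obtain ⟨r, rfl⟩ : ∃ r, k = r + 2 := ⟨k - 2, by omega⟩
  obtain ⟨n, rfl⟩ : ∃ n, d = n + 2 := ⟨d - 2, by omega⟩
  refine ⟨exMap r n, fun p hp i hi => ?_⟩
  obtain ⟨c, hc, hfix⟩ := fixed_normalised (exMap r n) p hp i hi
  set u := ofPlane i p with hu
  have hv : i.insertNth (α := fun _ => ℂ) 1 u ≠ 0 := by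
    intro h
    have := congrFun h i
    simp at this
  obtain ⟨⟨κ, hκ⟩, μ₁, μ₂, w₁, w₂, s₁, s₂, h1, h2, hw₁, hn₁, hw₂, hn₂⟩ :=
    eigen_lift r n _ hv c hfix
  obtain ⟨A, hA, hAf⟩ := hasFDerivAt_chart (exMap r n).lift i u _ (hasFDerivAt_lift r n _) c hc hfix
  refine ⟨A, ?_, μ₁, μ₂, ?_, ?_, h1, h2⟩
  · rw [inChart_eq]; exact hA
  · exact eigen_chart i u _ c hc A hAf κ hκ w₁ μ₁ s₁ hw₁ hn₁
  · exact eigen_chart i u _ c hc A hAf κ hκ w₂ μ₂ s₂ hw₂ hn₂

end Pool.Agent.Results.MP_10bb55_an.AllDimensions
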